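import Pool.Agent.MP_961ca8_al.H15.Spec

/-! The key lemma: approximate sections to superlinear order. -/

namespace Pool.Agent.MP_961ca8_al.H15

open MvPolynomial

namespace KL

variable {B : Type} [CommRing B]

/-- A monomial read from the index `i`. -/
noncomputable def M (B : Type) [CommRing B] (i : Fin 3) (a b d : ℕ) : P B :=
  X i ^ a * X (i + 1) ^ b * X (i + 2) ^ d

theorem M_one (j : Fin 3) (a b d : ℕ) : M B j a b d = M B (j + 1) b d a := by
  have e1 : j + 1 + 1 = j + 2 := by revert j; decide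
  have e2 : j + 1 + 2 = j := by revert j; decide
  unfold M
  rw [e1, e2]
  ring

theorem M_two (j : Fin 3) (a b d : ℕ) : M B j a b d = M B (j + 2) d a b := by
  have e1 : j + 2 + 1 = j := by revert j; decide
  have e2 : j + 2 + 2 = j + 1 := by revert j; decide
  unfold M
  rw [e1, e2]
  ring

theorem M_cen (i : Fin 3) (c : ℕ) : M B i c c c = (X 0 * X 1 * X 2) ^ c := by
  have h0 : M B 0 c c c = (X 0 * X 1 * X 2) ^ c := by
    unfold M
    rw [mul_pow, mul_pow]
    rfl
  have h : i = 0 ∨ i = 0 + 1 ∨ i = 0 + 2 := by revert i; decide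
  rcases h with rfl | rfl | rfl
  · exact h0
  · rw [← M_one, h0]
  · rw [← M_two, h0]

theorem M_hom (i : Fin 3) (a b d : ℕ) : (M B i a b d).IsHomogeneous (a + b + d) :=
  ((isHomogeneous_X_pow _ _).mul (isHomogeneous_X_pow _ _)).mul (isHomogeneous_X_pow _ _)

theorem mem_Q (s : B) (i : Fin 3) {a k : ℕ} (h : a ≤ k) :
    X i ^ a * uu s i ^ (3 * (k - a)) ∈ Q s i k := by
  have h1 : (X i : P B) ∈ Ideal.span {X i, uu s i ^ 3} := Ideal.subset_span (by simp)
  have h2 : uu s i ^ 3 ∈ Ideal.span {X i, uu s i ^ 3} := Ideal.subset_span (by simp)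
  have h3 := Ideal.mul_mem_mul (Ideal.pow_mem_pow h1 a) (Ideal.pow_mem_pow h2 (k - a))
  rw [← pow_add, Nat.add_sub_cancel' h, ← pow_mul] at h3
  exact h3

/-- The generators of the correction spaces. -/
def Gen (s : B) (μ f : ℤ → ℤ) (r K c : ℕ) (i : Fin 3) : Set (P B) :=
  {y | ∃ (a b d w : ℕ) (e l : ℤ), a + b + d = 3 * c ∧ e = c - a ∧ l = b - c ∧ -(r : ℤ) < e ∧
    -f e ≤ l ∧ l < -f e + 3 * (e + r) ∧ (w : ℤ) = μ e - l ∧ y = C s ^ w * M B i a b d}

/-- The property of the segments. -/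
def Seg (μ f : ℤ → ℤ) (r K : ℕ) : Prop :=
  ∀ e : ℤ, -(r : ℤ) < e → ∀ l : ℤ, -f e ≤ l → l < -f e + 3 * (e + r) →
    (-l ≤ 2 * e + K ∧ l - e ≤ 2 * e + K) ∧ 1 ≤ μ e - l ∧
      (-(r : ℤ) < -l → μ (-l) + 2 * l < μ e + e) ∧
      (-(r : ℤ) < l - e → μ (l - e) + (l - e) < μ e - 2 * e)

theorem star (hrow : RowStmt) (hin : InactStmt) (s : B) {μ f : ℤ → ℤ} {r K t c : ℕ}
    (hμ : ∀ e : ℤ, 0 ≤ e → ((2 * t + 3 : ℕ) : ℤ) * e - K ≤ μ e) (hs : Seg μ f r K)
    (hc : 3 * r + K + t * (r + K) ≤ c) (i : Fin 3) {a b d w δ : ℕ} {e : ℤ}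
    (habd : a + b + d = 3 * c) (he : e = c - a) (hw : -(r : ℤ) < e → μ e + c + δ ≤ w + b) :
    ∃ x ∈ Submodule.span B (Gen s μ f r K c i), C s ^ w * M B i a b d - s ^ δ • x ∈
      Q s i (c + r) ⊔ Ideal.span {(C s : P B) ^ (t * (c + r))} := by
  by_cases h1 : -(r : ℤ) < e
  swap
  · refine ⟨0, Submodule.zero_mem _, Ideal.mem_sup_left ?_⟩
    obtain ⟨m, rfl⟩ : ∃ m, a = c + r + m := ⟨a - (c + r), by omega⟩
    have h2 := mem_Q s i (le_refl (c + r))
    rw [Nat.sub_self, mul_zero, pow_zero, mul_one] at h2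
    have e1 : C s ^ w * M B i (c + r + m) b d - s ^ δ • (0 : P B) =
        (C s ^ w * X i ^ m * X (i + 1) ^ b * X (i + 2) ^ d) * X i ^ (c + r) := by
      unfold M
      rw [smul_zero, pow_add]
      ring
    rw [e1]
    exact Ideal.mul_mem_left _ _ h2
  have hw' := hw h1
  have hQ := mem_Q s i (show a ≤ c + r by omega)
  obtain ⟨E, hE⟩ : ∃ E, E = 3 * (c + r - a) := ⟨_, rfl⟩
  rw [← hE] at hQ
  have hE' : (E : ℤ) = 3 * (e + r) := by omega
  by_cases h2 : 2 * e + K ≤ c
  swap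
  · have hK : K ≤ c := by omega
    have h3 := hμ e (by omega)
    have h4 : (t : ℤ) * (c - K + 1) ≤ t * (2 * e) :=
      mul_le_mul_of_nonneg_left (by omega) (by positivity)
    have h5 : ((3 * r + K + t * (r + K) : ℕ) : ℤ) ≤ c := by exact_mod_cast hc
    have h6 : ((t * (c + r) + E : ℕ) : ℤ) ≤ (w + b + 1 : ℕ) := by
      push_cast at h3 h5 ⊢
      have : (0 : ℤ) ≤ t := by positivity
      have : (0 : ℤ) ≤ δ := by positivity
      nlinarith
    obtain ⟨α, β, e1⟩ := hin (P B) (X (i + 1)) (X (i + 2)) (C s) E (t * (c + r)) w b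
      (by exact_mod_cast h6)
    refine ⟨0, Submodule.zero_mem _, ?_⟩
    have e2 : C s ^ w * M B i a b d - s ^ δ • (0 : P B) =
        (α * X (i + 2) ^ d) * (X i ^ a * uu s i ^ E) +
          (β * X i ^ a * X (i + 2) ^ d) * C s ^ (t * (c + r)) := by
      unfold M uu
      rw [smul_zero]
      linear_combination (X i ^ a * X (i + 2) ^ d) * e1
    rw [e2]
    exact Ideal.add_mem _ (Ideal.mem_sup_left (Ideal.mul_mem_left _ _ hQ))
      (Ideal.mem_sup_right (Ideal.mul_mem_left _ _ (Ideal.subset_span rfl)))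
  have k1 := hs e h1 (-f e) le_rfl (by omega)
  have k2 := hs e h1 (-f e + 3 * (e + r) - 1) (by omega) (by omega)
  obtain ⟨l0, hl0⟩ : ∃ l0 : ℕ, (l0 : ℤ) = c - f e := ⟨(c - f e).toNat, by omega⟩
  obtain ⟨co, h, e1⟩ := hrow (P B) (X (i + 1)) (X (i + 2)) (C s) E (b + d) l0 b (w + b)
    (by omega) (by omega) (by omega) (by omega)
  rw [Nat.add_sub_cancel, Nat.add_sub_cancel_left] at e1
  have key : ∀ j ∈ Finset.range E, ∃ x ∈ Submodule.span B (Gen s μ f r K c i),
      s ^ δ • x = X i ^ a * ((co j : P B) * (C s ^ (w + b - (l0 + j)) * X (i + 1) ^ (l0 + j) *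
        X (i + 2) ^ (b + d - (l0 + j)))) := by
    intro j hj
    have hj' := Finset.mem_range.1 hj
    have k3 := hs e h1 ((l0 + j : ℕ) - c) (by omega) (by omega)
    obtain ⟨wj, hwj⟩ : ∃ wj : ℕ, (wj : ℤ) = μ e - ((l0 + j : ℕ) - c) :=
      ⟨(μ e - ((l0 + j : ℕ) - c)).toNat, by omega⟩
    obtain ⟨m, hm⟩ : ∃ m, w + b - (l0 + j) = δ + m + wj := ⟨w + b - (l0 + j) - δ - wj, by omega⟩
    have hg : C s ^ wj * M B i a (l0 + j) (b + d - (l0 + j)) ∈ Gen s μ f r K c i :=
      ⟨a, l0 + j, b + d - (l0 + j), wj, e, (l0 + j : ℕ) - c, by omega, he, rfl, h1, by omega,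
        by omega, hwj, rfl⟩
    refine ⟨((co j : B) * s ^ m) • _, Submodule.smul_mem _ _ (Submodule.subset_span hg), ?_⟩
    rw [hm, smul_eq_C_mul, smul_eq_C_mul]
    unfold M
    simp only [map_mul, map_pow, map_intCast, pow_add]
    ring
  choose! x hx using key
  refine ⟨∑ j ∈ Finset.range E, x j, Submodule.sum_mem _ fun j hj => (hx j hj).1,
    Ideal.mem_sup_left ?_⟩
  have e2 : C s ^ w * M B i a b d - s ^ δ • ∑ j ∈ Finset.range E, x j =
      h * (X i ^ a * uu s i ^ E) := by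
    rw [Finset.smul_sum, Finset.sum_congr rfl fun j hj => (hx j hj).2, ← Finset.mul_sum]
    unfold M uu
    linear_combination (X i ^ a) * e1
  rw [e2]
  exact Ideal.mul_mem_left _ _ hQ

end KL

open KL in
theorem kl_of : CLStmt → RowStmt → InactStmt → ApproxStmt → KLStmt := by
  intro hcl hrow hin happ B _ s r t
  obtain ⟨μ, K, h0, hμ, hf⟩ := hcl r (2 * t + 3)
  choose! f hs using hf
  refine ⟨3 * r + K + t * (r + K) + r, fun k hk => ?_⟩
  obtain ⟨c, rfl⟩ : ∃ c, k = c + r := ⟨k - r, by omega⟩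
  have hc : 3 * r + K + t * (r + K) ≤ c := by omega
  rw [Nat.add_sub_cancel]
  obtain ⟨z, hz, hG⟩ := happ B (P B) s (t * (c + r))
    (fun i => Q s i (c + r) ⊔ Ideal.span {(C s : P B) ^ (t * (c + r))})
    (fun i => Submodule.span B (Gen s μ f r K c i)) ((X 0 * X 1 * X 2) ^ c)
    (fun i => Ideal.mem_sup_right (Ideal.subset_span rfl))
    (fun i => by
      obtain ⟨x, hx, h⟩ := star hrow hin s hμ hs hc i (a := c) (b := c) (d := c) (w := 0) (δ := 0)
        (e := 0) (by omega) (by omega) (fun _ => by rw [h0]; simp)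
      rw [pow_zero, pow_zero, one_mul, one_smul, M_cen] at h
      exact ⟨x, hx, h⟩)
    (fun i j hij y hy => by
      induction hy using Submodule.span_induction with
      | mem y hy =>
        obtain ⟨a, b, d, w, e, l, habd, he, hl, h1, h2, h3, hw, rfl⟩ := hy
        obtain ⟨-, -, k1, k2⟩ := hs e h1 l h2 h3
        have hi : i = j + 1 ∨ i = j + 2 := by revert i j; decide
        rcases hi with rfl | rfl
        · obtain ⟨x, hx, h⟩ := star hrow hin s hμ hs hc (j + 1) (a := b) (b := d) (d := a)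
            (w := w) (δ := 1) (e := -l) (by omega) (by omega)
            (fun h => by have := k1 h; omega)
          rw [pow_one, ← M_one] at h
          exact ⟨x, hx, h⟩
        · obtain ⟨x, hx, h⟩ := star hrow hin s hμ hs hc (j + 2) (a := d) (b := a) (d := b)
            (w := w) (δ := 1) (e := l - e) (by omega) (by omega)
            (fun h => by have := k2 h; omega)
          rw [pow_one, ← M_two] at h
          exact ⟨x, hx, h⟩
      | zero => exact ⟨0, Submodule.zero_mem _, by simp⟩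
      | add y y' _ _ ih ih' =>
        obtain ⟨x, hx, h⟩ := ih
        obtain ⟨x', hx', h'⟩ := ih'
        refine ⟨x + x', Submodule.add_mem _ hx hx', ?_⟩
        have e : y + y' - s • (x + x') = (y - s • x) + (y' - s • x') := by
          rw [smul_add]; abel
        rw [e]
        exact Ideal.add_mem _ h h'
      | smul β y _ ih =>
        obtain ⟨x, hx, h⟩ := ih
        refine ⟨β • x, Submodule.smul_mem _ _ hx, ?_⟩
        rw [smul_comm s β, ← smul_sub]
        exact Submodule.smul_of_tower_mem _ β h)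
  have hle : (⨆ i, Submodule.span B (Gen s μ f r K c i)) ≤ homogeneousSubmodule (Fin 3) B (3 * c) ⊓
      (Ideal.span {(C s : P B)}).restrictScalars B := by
    refine iSup_le fun i => Submodule.span_le.2 ?_
    rintro _ ⟨a, b, d, w, e, l, habd, he, hl, h1, h2, h3, hw, rfl⟩
    obtain ⟨-, k1, -⟩ := hs e h1 l h2 h3
    refine ⟨?_, ?_⟩
    · have := M_hom (B := B) i a b d
      rw [habd] at this
      have h4 := this.C_mul (s ^ w)
      rw [map_pow] at h4
      exact h4
    · obtain ⟨w', rfl⟩ : ∃ w', w = w' + 1 := ⟨w - 1, by omega⟩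
      exact Ideal.mem_span_singleton'.2 ⟨C s ^ w' * M B i a b d, by ring⟩
  obtain ⟨z1, z2⟩ := hle hz
  refine ⟨(X 0 * X 1 * X 2) ^ c + z, ?_, ?_, hG⟩
  · refine IsHomogeneous.add ?_ z1
    have := M_hom (B := B) 0 c c c
    rwa [M_cen, show c + c + c = 3 * c by omega] at this
  · rw [add_sub_cancel_left]
    exact z2

end Pool.Agent.MP_961ca8_al.H15
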